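import Pool.Agent.T9h36.N1.Spec

/-! # Slope 1, piece N4 -/

set_option autoImplicit false

open Set
open scoped RealInnerProductSpace

namespace Pool.Agent.T9h91.N1

open Pool.Agent.T9h98.DC Pool.Agent.T9h98.NK Pool.Agent.T9h44.NK Pool.Agent.T9h46.NK
open Pool.Agent.T9h36.N1

theorem n4 : S_FACES → S_VF → S_INV → S_IOTA → S_TR → S_LOCC → S_C2 → S_N2 → S_N4 := by
  intro hF hVF hI hO hT hLC hC2 hN2 m N hN hMK j
  induction j with
  | zero =>
    intro n hn P H hP hH hFew hR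
    exact hN2 n P H (by omega) hP hH (hMK n (by omega) P H hP hH hFew) hR
  | succ j ih =>
    intro n hn P H hP hH hFew hR
    obtain ⟨n', rfl⟩ : ∃ n', n = n' + 1 := ⟨n - 1, by omega⟩
    have hG := hMK (n' + 1) (by omega) P H hP hH hFew
    have h1 := hN2 (n' + 1) P H (by omega) hP hH hG hR
    -- data at every vertex
    have hdat : ∀ v, Vx P v → ∃ (a : E (n' + 1 + 1)) (ι : E (n' + 1) →ₗᵢ[ℝ] E (n' + 1 + 1)),
        a ≠ 0 ∧ Sup P v a ∧ Ort a ι ∧ (∀ h ∈ H, h v = v → h a = a) := by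
      intro v hv
      obtain ⟨a, ha, hs, hfix⟩ := hI (n' + 1 + 1) P v H hP.1 hv (exists_ne hP v) hH
      obtain ⟨ι, hι, -⟩ := hO (n' + 1) a ha
      exact ⟨a, ι, ha, hs, hι, hfix⟩
    by_cases hex : ∃ (v a : E (n' + 1 + 1)) (ι : E (n' + 1) →ₗᵢ[ℝ] E (n' + 1 + 1)), Vx P v ∧ a ≠ 0 ∧
        Sup P v a ∧ Ort a ι ∧ (∀ h ∈ H, h v = v → h a = a) ∧
          (RegS (fig v a ι P) ∨ RegO (fig v a ι P))
    · obtain ⟨v, a, ι, hv, ha, hs, hι, hfix, hreg⟩ := hex
      obtain ⟨t1, -, t3, t4, -⟩ := hT (n' + 1) P H v a ι hP hH hv hs ha hι hfix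
      have hfig := (hVF (n' + 1) P v a ι hP hv hs ha hι).1
      exact t3 (j + 1) (fun w hw => vtrans h1 v w hv hw)
        (ih n' (by omega) _ _ hfig t1 (t4 m hFew) hreg)
    · exfalso
      have hall : ∀ v, Vx P v → ∃ g, LocC P v g := by
        intro v hv
        obtain ⟨a, ι, ha, hs, hι, hfix⟩ := hdat v hv
        obtain ⟨t1, -, -, t4, -⟩ := hT (n' + 1) P H v a ι hP hH hv hs ha hι hfix
        have hfig := (hVF (n' + 1) P v a ι hP hv hs ha hι).1
        have hGf : Good (fig v a ι P) (figH H v ι) :=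
          hMK n' (by omega) _ _ hfig t1 (t4 m hFew)
        have hC : RegC (fig v a ι P) := by
          rcases hGf.1 with h | h | h
          · exact absurd ⟨v, a, ι, hv, ha, hs, hι, hfix, Or.inl h⟩ hex
          · exact absurd ⟨v, a, ι, hv, ha, hs, hι, hfix, Or.inr h⟩ hex
          · exact h
        exact hLC (n' + 1) P H v a ι (by omega) hP hH hv ⟨hs, ha, hι, hfix, hGf⟩ hC
      have hPne : P.Nonempty := hP.2.mono interior_subset
      obtain ⟨v, hv⟩ := ((hF (n' + 1 + 1) P hP.1).2.2.2.2.1 hPne).2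
      exact hC2 (n' + 1) P (by omega) hP ⟨v, hv⟩ hall

end Pool.Agent.T9h91.N1
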